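import Pool.Agent.Helper13IR.Free
import Pool.Agent.N110.DV.Conv
import Pool.Agent.N110.CC.SDefs

/-!
Abundance and semiampleness in a group of divisor classes of rank `r + 1` on which `ℤ ^ r` acts
irreducibly.
-/

set_option autoImplicit false
set_option linter.unusedSectionVars false
set_option linter.unusedVariables false

open FF Pool.Agent.W602.GT Pool.Agent.Y172 Pool.Agent.R887
open Pool.Agent.N110 Pool.Agent.N110.PA Pool.Agent.N110.NV Pool.Agent.N492.PA Pool.Agent.N110.CC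
open Pool.Agent.N110.DV

namespace Pool.Agent.Helper13IR

section

variable {K : Type} [Field K] [Algebra ℂ K] {N n r ρ : ℕ} {y : Fin (N + 1) → K}
  {c : Place ℂ K → Fin ρ → ℤ}

/-- a divisor whose class is effective -/
theorem eff_of_class {L : Place ℂ K → ℚ} (h : toR (cls y (cQ c) L) ∈ effCone y c) :
    ∃ E, Effective y E ∧ cls y (cQ c) E = cls y (cQ c) L := by
  classical
  obtain ⟨S, hS, a, ha, hsum⟩ := h
  have hP : ∀ z : S, ∃ P : Place ℂ K, IsPrimeDivisor y P ∧ (z : Fin ρ → ℝ) = rcl c P := by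
    intro z
    obtain ⟨P, hP1, hP2⟩ := hS z.2
    exact ⟨P, hP1, hP2⟩
  choose P hP using hP
  have htoR : ∀ z : S, toR (cQ c (P z)) = z := by
    intro z
    conv_rhs => rw [(hP z).2]
    funext j
    simp [toR, cQ, rcl]
  obtain ⟨a', ha', hrat⟩ := Pool.Agent.N619.CC.rat_cone (fun z : S => cQ c (P z))
    (cls y (cQ c) L) _ Finset.univ rfl (fun z => a z) (fun z => ha z) (by
      rw [hsum, ← Finset.sum_coe_sort S]
      refine Finset.sum_congr rfl fun z _ => ?_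
      rw [htoR z])
  obtain ⟨E, hE⟩ : ∃ E : Place ℂ K → ℚ, E = fun Q => ∑ z : S, if Q = P z then a' z else 0 :=
    ⟨_, rfl⟩
  have hEf : Fin0 y E := by
    rw [hE]
    exact Fin0.sum Finset.univ fun z _ => fin_single (P z) (a' z)
  refine ⟨E, ⟨fun Q _ => ?_, hEf⟩, ?_⟩
  · rw [hE]
    refine Finset.sum_nonneg fun z _ => ?_
    split_ifs
    · exact ha' z
    · exact le_rfl
  · rw [hrat, hE, cls_sum Finset.univ fun z _ => fin_single (P z) (a' z)]
    exact Finset.sum_congr rfl fun z _ => cls_single (hP z).1 _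

/-- the class of an effective divisor -/
theorem eff_mem_cone {E : Place ℂ K → ℚ} (hE : Effective y E) :
    toR (cls y (cQ c) E) ∈ effCone y c := by
  classical
  have h1 : cls y (cQ c) E = ∑ P ∈ hE.2.toFinset, E P • cQ c P := by
    refine cls_finset (c := cQ c) (fun P hP => (hE.2.mem_toFinset.1 hP).1) fun P hP hPT => ?_
    by_contra h2
    exact hPT (hE.2.mem_toFinset.2 ⟨hP, h2⟩)
  rw [h1, toR_sum]
  have h2 : ∀ T : Finset (Place ℂ K), (∀ P ∈ T, IsPrimeDivisor y P) →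
      ∑ P ∈ T, toR (E P • cQ c P) ∈ effCone y c := by
    intro T
    induction T using Finset.induction_on with
    | empty =>
      intro _
      rw [Finset.sum_empty]
      exact coneOf_zero _
    | insert P T hPT ih =>
      intro hT
      rw [Finset.sum_insert hPT]
      refine coneOf_add ?_ (ih fun Q hQ => hT Q (Finset.mem_insert_of_mem hQ))
      rw [toR_smul]
      have h3 : toR (cQ c P) ∈ effCone y c :=
        mem_coneOf ⟨P, hT P (Finset.mem_insert_self P T), by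
          funext j
          simp [toR, cQ, rcl]⟩
      have h4 : (0 : ℝ) ≤ ((E P : ℚ) : ℝ) := by
        have := hE.1 P (hT P (Finset.mem_insert_self P T))
        exact_mod_cast this
      exact coneOf_smul h3 h4
  exact h2 _ fun P hP => (hE.2.mem_toFinset.1 hP).1

/-- the numerical dimension of a smaller divisor -/
theorem nuLt_mono {L L' B : Place ℂ K → ℚ} (hB : Effective y B)
    (h : ∀ m : ℕ, 1 ≤ m → ∃ f : K, f ≠ 0 ∧ ∀ P, IsPrimeDivisor y P →
      0 ≤ (P.ord f : ℚ) + m * (L' P - L P) + B P) {j : ℕ} (hj : NuLt y n L' j) :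
    NuLt y n L j := by
  intro A hA ε hε
  obtain ⟨t, ht, m₀, h1⟩ := hj (fun P => A P + B P)
    ⟨fun P hP => add_nonneg (hA.1 P hP) (hB.1 P hP), Fin0.add (y := y) hA.2 hB.2⟩ ε hε
  obtain ⟨q, hq⟩ := exists_nat_gt (1 / t)
  refine ⟨t, ht, max (max m₀ 1) q, fun m b hm hb u hu g hg hg0 => ?_⟩
  have hm1 : 1 ≤ m := le_trans (le_trans (le_max_right _ _) (le_max_left _ _)) hm
  have hmm : m₀ ≤ m := le_trans (le_trans (le_max_left _ _) (le_max_left _ _)) hm
  have hmq : q ≤ m := le_trans (le_max_right _ _) hm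
  have hmt : (1 : ℝ) ≤ t * m := by
    have h2 : (q : ℝ) ≤ m := by exact_mod_cast hmq
    have h3 : 1 / t < (m : ℝ) := hq.trans_le h2
    rw [div_lt_iff₀ ht] at h3
    linarith
  obtain ⟨f, hf, h2⟩ := h m hm1
  have h3 := h1 m (max b 1) hmm (by
    push_cast
    exact max_le hb hmt) u hu (fun i => f * g i) (fun i P hP => ?_) (mul_ne_zero hf hg0)
  · have h4 : (fun i : Fin j => (fun i => f * g i) i.succ / (fun i => f * g i) 0) =
        fun i : Fin j => g i.succ / g 0 := by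
      funext i
      show f * g i.succ / (f * g 0) = _
      rw [mul_div_mul_left _ _ hf]
    rw [h4] at h3
    exact h3
  · by_cases hgi : g i = 0
    · left
      rw [hgi, mul_zero]
    · right
      rcases hg i P hP with h4 | h4
      · exact absurd h4 hgi
      · rw [P.ord_mul hf hgi]
        rw [sm2] at h4 ⊢
        have h5 := h2 P hP
        have h6 := hA.1 P hP
        have h7 := hB.1 P hP
        have h8 : (b : ℚ) ≤ (max b 1 : ℕ) := by exact_mod_cast le_max_left b 1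
        have h9 : (1 : ℚ) ≤ (max b 1 : ℕ) := by exact_mod_cast le_max_right b 1
        push_cast
        push_cast at h8 h9
        nlinarith [mul_le_mul_of_nonneg_right h8 h6, mul_le_mul_of_nonneg_right h9 h7]

theorem nuLt_nsmul {L : Place ℂ K → ℚ} {j k : ℕ} (hk : 1 ≤ k) (h : NuLt y n L j) :
    NuLt y n (fun P => (k : ℚ) * L P) j := by
  intro A hA ε hε
  have hk0 : (0 : ℝ) < k := by exact_mod_cast hk
  have hk1 : (1 : ℝ) ≤ k := by exact_mod_cast hk
  obtain ⟨t, ht, m₀, h1⟩ := h A hA (ε / (k : ℝ) ^ j) (by positivity)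
  refine ⟨t, ht, m₀, fun m b hm hb u hu g hg hg0 => ?_⟩
  have h2 := h1 (k * m) b (le_trans hm (Nat.le_mul_of_pos_left m hk)) (by
    refine hb.trans ?_
    push_cast
    have : (0 : ℝ) ≤ t * m := by positivity
    nlinarith) u hu g (fun i P hP => ?_) hg0
  · refine h2.trans (le_of_eq ?_)
    push_cast
    rw [mul_pow]
    field_simp
  · rcases hg i P hP with h3 | h3
    · exact Or.inl h3
    · right
      rw [sm2] at h3 ⊢
      push_cast
      linarith

theorem iitaka_mono {L L' : Place ℂ K → ℚ} {m₁ : ℕ} (hm₁ : 1 ≤ m₁) {f : K} (hf : f ≠ 0)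
    (h : ∀ P, IsPrimeDivisor y P → 0 ≤ (P.ord f : ℚ) + m₁ * (L' P - L P)) {j : ℕ}
    (hj : IitakaGe y L j) : IitakaGe y L' j := by
  obtain ⟨m, hm, g, hg, hg0, hind⟩ := hj
  refine ⟨m * m₁, Nat.one_le_iff_ne_zero.2 (by positivity), fun i => g i * (g 0 ^ (m₁ - 1) * f ^ m),
    fun i P hP => ?_, mul_ne_zero hg0 (mul_ne_zero (pow_ne_zero _ hg0) (pow_ne_zero _ hf)), ?_⟩
  · by_cases hgi : g i = 0
    · left
      show g i * _ = 0
      rw [hgi, zero_mul]
    · right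
      show _ ≤ ((P.ord (g i * (g 0 ^ (m₁ - 1) * f ^ m)) : ℤ) : ℚ)
      rw [P.ord_mul hgi (mul_ne_zero (pow_ne_zero _ hg0) (pow_ne_zero _ hf)),
        P.ord_mul (pow_ne_zero _ hg0) (pow_ne_zero _ hf), P.ord_pow, P.ord_pow]
      rcases hg i P hP with h3 | h3
      · exact absurd h3 hgi
      rcases hg 0 P hP with h4 | h4
      · exact absurd h4 hg0
      have h5 := h P hP
      rw [sm1] at h3 h4 ⊢
      push_cast [Nat.cast_sub hm₁]
      have h6 : (1 : ℚ) ≤ m₁ := by exact_mod_cast hm₁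
      have h7 : (0 : ℚ) ≤ m := Nat.cast_nonneg _
      nlinarith [mul_le_mul_of_nonneg_left h4 (by linarith : (0 : ℚ) ≤ (m₁ : ℚ) - 1),
        mul_nonneg h7 h5]
  · have h4 : (fun i : Fin j => (fun i => g i * (g 0 ^ (m₁ - 1) * f ^ m)) i.succ /
        (fun i => g i * (g 0 ^ (m₁ - 1) * f ^ m)) 0) = fun i : Fin j => g i.succ / g 0 := by
      funext i
      show g i.succ * (g 0 ^ (m₁ - 1) * f ^ m) / (g 0 * (g 0 ^ (m₁ - 1) * f ^ m)) = _
      rw [mul_div_mul_right _ _ (mul_ne_zero (pow_ne_zero _ hg0) (pow_ne_zero _ hf))]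
    rw [h4]
    exact hind

theorem iitaka_of_nsmul {L : Place ℂ K → ℚ} {k : ℕ} (hk : 1 ≤ k) {j : ℕ}
    (h : IitakaGe y (fun P => (k : ℚ) * L P) j) : IitakaGe y L j := by
  obtain ⟨m, hm, g, hg, hg0, hind⟩ := h
  refine ⟨m * k, Nat.one_le_iff_ne_zero.2 (by positivity), g, fun i P hP => ?_, hg0, hind⟩
  rcases hg i P hP with h3 | h3
  · exact Or.inl h3
  · right
    rw [sm1] at h3 ⊢
    push_cast
    linarith

/-- the comparison of two divisors -/
theorem compare (hy : NormalModel y) (hc : PicardBasis y c) (hq : IrregularityZero y)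
    {L L' : Place ℂ K → ℚ} (hL : {P | IsPrimeDivisor y P ∧ L P ≠ 0}.Finite)
    (hL' : {P | IsPrimeDivisor y P ∧ L' P ≠ 0}.Finite) {k : ℕ} (hk : 1 ≤ k)
    (h : (k : ℝ) • toR (cls y (cQ c) L') - toR (cls y (cQ c) L) ∈ effCone y c) (j : ℕ) :
    (IitakaGe y L j → IitakaGe y L' j) ∧ (NuLt y n L' j → NuLt y n L j) := by
  have hkL' : Fin0 y (fun P => (k : ℚ) * L' P) := Fin0.smul (y := y) hL' _
  have hdiff : Fin0 y (fun P => (k : ℚ) * L' P - L P) := hkL'.sub hL
  have h1 : toR (cls y (cQ c) (fun P => (k : ℚ) * L' P - L P)) ∈ effCone y c := by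
    rw [cls_sub hkL' hL, cls_smul, toR_sub, toR_smul]
    push_cast
    exact h
  obtain ⟨E, hE, hEc⟩ := eff_of_class h1
  have hNf : Fin0 y (fun P => (k : ℚ) * L' P - L P - E P) := hdiff.sub hE.2
  have hN : cls y (cQ c) (fun P => (k : ℚ) * L' P - L P - E P) = 0 := by
    rw [cls_sub hdiff hE.2, hEc, sub_self]
  obtain ⟨m₁, hm₁, f, hf, hfo⟩ := torsion hy hq hNf (psef_of_zero hc.numClasses hNf hN)
    (psef_of_zero hc.numClasses (fin_neg hNf) (by rw [cls_neg, hN, neg_zero]))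
  have hfi : ∀ P : Place ℂ K, IsPrimeDivisor y P → ((P.ord f⁻¹ : ℤ) : ℚ) =
      -(m₁ * ((k : ℚ) * L' P - L P - E P)) := by
    intro P hP
    rw [P.ord_inv, ← hfo P hP]
    push_cast
    rfl
  refine ⟨fun h2 => iitaka_of_nsmul hk (iitaka_mono hm₁ (inv_ne_zero hf) (fun P hP => ?_) h2),
    fun h2 => nuLt_mono (B := fun P => m₁ * |(k : ℚ) * L' P - L P|) ⟨fun P _ => by positivity, ?_⟩
      (fun m _ => ?_) (nuLt_nsmul hk h2)⟩
  · rw [hfi P hP]
    have h3 := hE.1 P hP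
    have h4 : (0 : ℚ) ≤ m₁ := Nat.cast_nonneg _
    nlinarith [mul_nonneg h4 h3]
  · refine hdiff.subset ?_
    rintro P ⟨hP, h3⟩
    refine ⟨hP, fun h4 => h3 ?_⟩
    change (k : ℚ) * L' P - L P = 0 at h4
    show (m₁ : ℚ) * |(k : ℚ) * L' P - L P| = 0
    rw [h4, abs_zero, mul_zero]
  · refine ⟨f⁻¹ ^ (m / m₁), pow_ne_zero _ (inv_ne_zero hf), fun P hP => ?_⟩
    rw [P.ord_pow, Int.cast_mul, Int.cast_natCast, hfi P hP]
    have h3 := hE.1 P hP
    have h5 : (m : ℚ) = m₁ * (m / m₁ : ℕ) + (m % m₁ : ℕ) := by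
      exact_mod_cast (Nat.div_add_mod m m₁).symm
    have h6 : ((m % m₁ : ℕ) : ℚ) ≤ m₁ := by
      exact_mod_cast (Nat.mod_lt m (by omega)).le
    obtain ⟨a, ha⟩ : ∃ a : ℚ, a = ((m / m₁ : ℕ) : ℚ) := ⟨_, rfl⟩
    obtain ⟨b, hb⟩ : ∃ b : ℚ, b = ((m % m₁ : ℕ) : ℚ) := ⟨_, rfl⟩
    obtain ⟨d, hd⟩ : ∃ d : ℚ, d = (k : ℚ) * L' P - L P := ⟨_, rfl⟩
    have ha0 : 0 ≤ a := ha ▸ Nat.cast_nonneg _
    have hb0 : 0 ≤ b := hb ▸ Nat.cast_nonneg _
    have hm0 : (0 : ℚ) ≤ m₁ := Nat.cast_nonneg _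
    rw [h5, ← ha, ← hb, ← hd]
    rw [← hb] at h6
    have h7 : 0 ≤ a * (m₁ * E P) := mul_nonneg ha0 (mul_nonneg hm0 h3)
    have h8 : b * d + m₁ * |d| ≥ 0 := by
      have h9 := neg_abs_le d
      have h10 := abs_nonneg d
      nlinarith [mul_le_mul_of_nonneg_left h9 hb0, mul_le_mul_of_nonneg_right h6 h10]
    nlinarith

/-- the class of a divisor with nonnegative Iitaka dimension -/
theorem eff_of_iitaka (hy : NormalModel y) (hc : PicardBasis y c) {L : Place ℂ K → ℚ}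
    (hL : {P | IsPrimeDivisor y P ∧ L P ≠ 0}.Finite) (h : IitakaGe y L 0) :
    toR (cls y (cQ c) L) ∈ effCone y c := by
  obtain ⟨m, hm, g, hg, hg0, -⟩ := h
  have hm0 : (0 : ℝ) < m := by exact_mod_cast hm
  have hmL : Fin0 y (fun P => (m : ℚ) * L P) := Fin0.smul (y := y) hL _
  have hgf : Fin0 y (fun P => ((P.ord (g 0) : ℤ) : ℚ)) := by
    refine (finite_ord hy hg0).subset ?_
    rintro P ⟨hP, h1⟩
    exact ⟨hP, fun h2 => h1 (by show ((P.ord (g 0) : ℤ) : ℚ) = 0; rw [h2]; simp)⟩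
  have h1 : Effective y (fun P => (m : ℚ) * L P + P.ord (g 0)) := by
    refine ⟨fun P hP => ?_, hmL.add hgf⟩
    rcases hg 0 P hP with h2 | h2
    · exact absurd h2 hg0
    · rw [sm1] at h2
      linarith
  have h2 := eff_mem_cone (c := c) h1
  have hpr : cls y (cQ c) (fun P => ((P.ord (g 0) : ℤ) : ℚ)) = 0 :=
    hc.numClasses.principal (g 0) hg0
  rw [cls_add hmL hgf, hpr, add_zero, cls_smul, toR_smul] at h2
  have h3 := coneOf_smul h2 (inv_nonneg.2 hm0.le)
  push_cast at h3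
  rw [smul_smul, inv_mul_cancel₀ hm0.ne', one_smul] at h3
  exact h3

/-- **One effective divisor suffices.** -/
theorem abund (hy : NormalModel y) (hr : 0 < r)
    (hc : PicardBasis y c) {φ : (Fin r → ℤ) → (K ≃ₐ[ℂ] K)}
    (hφ : ∀ u v, φ (u + v) = φ u * φ v) (hps : ∀ v, PseudoAut (φ v) y)
    {s : Fin (r + 1) → Fin ρ → ℤ} (hli : LinearIndependent ℝ (fun j i => (s j i : ℝ)))
    (hst : ∀ v, PreservesSpan y c s (φ v)) (hirr : IrreducibleOn y c s φ)
    (hfa : FaithfulOn y c s φ) (hq : IrregularityZero y)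
    {L₀ L : Place ℂ K → ℚ} (hL₀ : {P | IsPrimeDivisor y P ∧ L₀ P ≠ 0}.Finite)
    (h0 : cls y (cQ c) L₀ ≠ 0) (hs₀ : ClassIn y c s L₀) (hI : IitakaGe y L₀ 0)
    (hL : {P | IsPrimeDivisor y P ∧ L P ≠ 0}.Finite)
    (h1 : cls y (cQ c) L ≠ 0) (hs : ClassIn y c s L) (hpsef : PsefD y L) (j : ℕ) :
    (IitakaGe y L j ↔ IitakaGe y L₀ j) ∧ (NuLt y n L j ↔ NuLt y n L₀ j) := by
  have hE1 := (Pool.Agent.N40.CC.leafEFF K N ρ y hy c hc).1
  have hp := Pool.Agent.N618.CC.leafPSCL K N ρ y hy (cQ c) hc.numClasses.principal L hL hpsef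
  have he := eff_of_iitaka hy hc hL₀ hI
  have hadd : ∀ x ∈ effCone y c, ∀ z ∈ effCone y c, x + z ∈ effCone y c :=
    fun x hx z hz => coneOf_add hx hz
  have hsmul : ∀ t : ℝ, 0 ≤ t → ∀ x ∈ effCone y c, t • x ∈ effCone y c :=
    fun t ht x hx => coneOf_smul hx ht
  have hinv : ∀ v T, IsPullBack y c (φ v) T → ∀ x ∈ effCone y c, T x ∈ effCone y c := by
    intro v T hT x hx
    refine coneOf_map T.toLinearMap ?_ hx
    rintro _ ⟨P, hP, rfl⟩
    have hPQ : ∀ g, P.ord g = (comap (φ v)⁻¹ P).ord (φ v g) := by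
      intro g
      show P.ord g = P.ord ((φ v)⁻¹ (φ v g))
      rw [← AlgEquiv.mul_apply, inv_mul_cancel]
      rfl
    exact ⟨comap (φ v)⁻¹ P, (hps v P _ hPQ).1 hP, hT P _ hP hPQ⟩
  obtain ⟨k, hk, -, h2⟩ := key hy hr hc hφ hps hli hst hirr hfa h0 hs₀ h1 hs hp hs₀ hadd hsmul hinv
    hE1 he
  obtain ⟨k', hk', -, h3⟩ := key hy hr hc hφ hps hli hst hirr hfa h0 hs₀ h0 hs₀ (hE1 he) hs hadd
    hsmul hinv hE1 he
  have h4 := compare (n := n) hy hc hq hL₀ hL hk h2 j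
  have h5 := compare (n := n) hy hc hq hL hL₀ hk' h3 j
  exact ⟨⟨h5.1, h4.1⟩, ⟨h4.2, h5.2⟩⟩

/-- **One nef divisor suffices.** -/
theorem nef (hy : NormalModel y) (hn : Algebra.trdeg ℂ K = n) (hn0 : 0 < n) (hr : 0 < r)
    (hc : PicardBasis y c) {φ : (Fin r → ℤ) → (K ≃ₐ[ℂ] K)}
    (hφ : ∀ u v, φ (u + v) = φ u * φ v) (haut : ∀ v, IsAut (φ v) y)
    {s : Fin (r + 1) → Fin ρ → ℤ} (hli : LinearIndependent ℝ (fun j i => (s j i : ℝ)))
    (hst : ∀ v, PreservesSpan y c s (φ v)) (hirr : IrreducibleOn y c s φ)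
    (hfa : FaithfulOn y c s φ) {L₀ L : Place ℂ K → ℚ} (h0 : cls y (cQ c) L₀ ≠ 0)
    (hs₀ : ClassIn y c s L₀) (hnef : realClass y c L₀ ∈ nefCone y n c)
    (hL : {P | IsPrimeDivisor y P ∧ L P ≠ 0}.Finite)
    (hs : ClassIn y c s L) (hpsef : PsefD y L) : realClass y c L ∈ nefCone y n c := by
  have hfr := fun v => Pool.Agent.N265.CC.leafFREE K N n y hy (φ v) (haut v)
  have hp := Pool.Agent.N618.CC.leafPSCL K N ρ y hy (cQ c) hc.numClasses.principal L hL hpsef
  by_cases h1 : cls y (cQ c) L = 0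
  · have h2 : realClass y c L = 0 := by
      funext i
      show ((cls y (cQ c) L i : ℚ) : ℝ) = 0
      rw [h1]
      simp
    rw [h2]
    exact subset_closure (coneOf_zero _)
  obtain ⟨-, -, h3, -⟩ := key (D := nefCone y n c) hy hr
    hc hφ (fun v => (hfr v).1) hli hst hirr hfa h0 hs₀ h1 hs hp hs₀
    (fun x hx z hz => closure_coneOf_add hx hz)
    (fun t ht x hx => closure_coneOf_smul hx ht) (fun v T hT x hx =>
      closure_coneOf_map T.toLinearMap (by
        rintro _ ⟨D', hD', rfl⟩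
        have h4 := Pool.Agent.N608.CC.leafMOV K N ρ y hy c (φ v) (hfr v).1 T hT D' hD'.1
        exact ⟨_, (hfr v).2 D' hD', h4.1.symm⟩) hx)
    (fun x hx => mov_sub hy hn hn0 hc (nef_sub_mov hy hn hn0 hc hx)) hnef
  exact h3

/-- **One semiample divisor suffices.** -/
theorem semiample (hy : NormalModel y) (hn : Algebra.trdeg ℂ K = n) (hn0 : 0 < n) (hr : 0 < r)
    (hc : PicardBasis y c) {φ : (Fin r → ℤ) → (K ≃ₐ[ℂ] K)}
    (hφ : ∀ u v, φ (u + v) = φ u * φ v) (haut : ∀ v, IsAut (φ v) y)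
    {s : Fin (r + 1) → Fin ρ → ℤ} (hli : LinearIndependent ℝ (fun j i => (s j i : ℝ)))
    (hst : ∀ v, PreservesSpan y c s (φ v)) (hirr : IrreducibleOn y c s φ)
    (hfa : FaithfulOn y c s φ) {L₀ L : Place ℂ K → ℚ} (h0 : cls y (cQ c) L₀ ≠ 0)
    (hs₀ : ClassIn y c s L₀) (hsa : SemiampleD y n L₀)
    (hL : {P | IsPrimeDivisor y P ∧ L P ≠ 0}.Finite)
    (hs : ClassIn y c s L) (hpsef : PsefD y L) :
    (∃ L', SemiampleD y n L' ∧ cls y (cQ c) L' = cls y (cQ c) L) ∧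
      (IrregularityZero y → SemiampleD y n L) := by
  have hfr := fun v => Pool.Agent.N265.CC.leafFREE K N n y hy (φ v) (haut v)
  have hp := Pool.Agent.N618.CC.leafPSCL K N ρ y hy (cQ c) hc.numClasses.principal L hL hpsef
  have hmain : ∃ m : ℕ, 1 ≤ m ∧ ∃ D : Place ℂ K → ℤ, IsFree y n D ∧
      cls y (cQ c) (fun P => m * L P - D P) = 0 := by
    by_cases h1 : cls y (cQ c) L = 0
    · refine ⟨1, le_rfl, fun _ => 0, free_zero hy, ?_⟩
      have h2 : (fun P => ((1 : ℕ) : ℚ) * L P - (((0 : ℤ) : ℚ))) = L := by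
        funext P
        simp
      rw [h2, h1]
    · obtain ⟨m, hm, D₀, hD₀, hD₀L⟩ := hsa
      have hm0 : (0 : ℝ) < m := by exact_mod_cast hm
      refine free_of_class hy hL ?_
      obtain ⟨-, -, h3, -⟩ := key (D := coneOf {z | ∃ D, IsFree y n D ∧ z = divClass y c D}) hy hr
        hc hφ (fun v => (hfr v).1) hli hst hirr hfa h0 hs₀ h1 hs hp hs₀
        (fun x hx z hz => coneOf_add hx hz)
        (fun t ht x hx => coneOf_smul hx ht) (fun v T hT x hx => by
          refine coneOf_map T.toLinearMap ?_ hx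
          rintro _ ⟨D', hD', rfl⟩
          have h4 := Pool.Agent.N608.CC.leafMOV K N ρ y hy c (φ v) (hfr v).1 T hT D' hD'.1
          exact ⟨_, (hfr v).2 D' hD', h4.1.symm⟩)
        (fun x hx => mov_sub hy hn hn0 hc (nef_sub_mov hy hn hn0 hc (subset_closure hx))) (by
          have h5 : toR (cls y (cQ c) L₀) = (m : ℝ)⁻¹ • divClass y c D₀ := by
            rw [Pool.Agent.N681.CC.divClass_eq c hD₀.1]
            have h6 : cls y (cQ c) (fun P => (D₀ P : ℚ)) = (m : ℚ) • cls y (cQ c) L₀ := by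
              rw [← cls_smul]
              exact cls_congr fun P hP => hD₀L P hP
            rw [h6, toR_smul]
            push_cast
            rw [smul_smul, inv_mul_cancel₀ hm0.ne', one_smul]
          have h6 : divClass y c D₀ ∈ coneOf {z | ∃ D, IsFree y n D ∧ z = divClass y c D} :=
            mem_coneOf ⟨D₀, hD₀, rfl⟩
          rw [h5]
          exact coneOf_smul h6 (inv_nonneg.2 hm0.le))
      exact h3
  obtain ⟨m, hm, D, hD, h7⟩ := hmain
  have hm0 : (m : ℚ) ≠ 0 := by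
    have : 0 < m := hm
    exact_mod_cast this.ne'
  have hDf : Fin0 y (fun P => (D P : ℚ)) := by
    refine hD.1.subset ?_
    rintro P ⟨h1, h2⟩
    exact ⟨h1, fun h3 => h2 (by show ((D P : ℤ) : ℚ) = 0; rw [h3]; simp)⟩
  refine ⟨⟨fun P => (m : ℚ)⁻¹ * D P, ⟨m, hm, D, hD, fun P _ => ?_⟩, ?_⟩, fun hq => ?_⟩
  · rw [← mul_assoc, mul_inv_cancel₀ hm0, one_mul]
  · rw [cls_smul]
    rw [cls_sub (Fin0.smul (y := y) hL _) hDf, cls_smul, sub_eq_zero] at h7
    rw [← h7, smul_smul, inv_mul_cancel₀ hm0, one_smul]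
  have hf : Fin0 y (fun P => m * L P - D P) := (Fin0.smul (y := y) hL (m : ℚ)).sub hDf
  have h1 := psef_of_zero hc.numClasses hf h7
  have h2 := psef_of_zero hc.numClasses (fin_neg hf) (by rw [cls_neg, h7, neg_zero])
  obtain ⟨k, hk, f, hf0, hk2⟩ := torsion hy hq hf h1 h2
  have h3 : ∀ P, IsPrimeDivisor y P →
      (((k : ℤ) * D P + P.ord f : ℤ) : ℚ) = ((k * m : ℕ) : ℚ) * L P := by
    intro P hP
    push_cast
    rw [hk2 P hP]
    ring
  refine ⟨k * m, Nat.one_le_iff_ne_zero.2 (by positivity), fun P => (k : ℤ) * D P + P.ord f,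
    free_princ (free_nsmul hy hD k) hf0 ?_ (fun P _ => rfl), h3⟩
  refine hL.subset ?_
  rintro P ⟨hP, h4⟩
  refine ⟨hP, fun h5 => h4 ?_⟩
  have h6 := h3 P hP
  rw [h5, mul_zero] at h6
  exact_mod_cast h6

end

end Pool.Agent.Helper13IR
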