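import Pool.Agent.N110.CC.WDefs

/-!
Definitions: irreducible and faithful actions of `ℤ ^ r` on groups of divisor classes.
-/

set_option autoImplicit false

open FF Pool.Agent.W602.GT Pool.Agent.Y172 Pool.Agent.R887 Pool.Agent.N110 Pool.Agent.N110.CC

namespace Pool.Agent.Helper13IR

section

variable {K : Type} [Field K] [Algebra ℂ K] {N ρ k r : ℕ}

/-- Let `Λ` be the group generated by the divisor classes `s j`. The action of `ℤ ^ r` by the pull
backs of the maps `f_v` with `φ v = f_v^*` on `Λ` is irreducible over `ℚ`: for all classes `x ≠ 0` in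
`Λ` the classes `f_v^* x` generate the vector space `Λ ⊗ ℝ`. -/
def IrreducibleOn (y : Fin (N + 1) → K) (c : Place ℂ K → Fin ρ → ℤ) (s : Fin k → Fin ρ → ℤ)
    (φ : (Fin r → ℤ) → (K ≃ₐ[ℂ] K)) : Prop :=
  ∀ t : Fin k → ℤ, t ≠ 0 → ∀ j, (fun i => (s j i : ℝ)) ∈ Submodule.span ℝ
    {x | ∃ v T, IsPullBack y c (φ v) T ∧ x = T (comb s (fun i => (t i : ℝ)))}

/-- The action of `ℤ ^ r` on the group `Λ` generated by the divisor classes `s j` is faithful: for
`v ≠ 0` the pull back `f_v^*` is not the identity on `Λ`. -/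
def FaithfulOn (y : Fin (N + 1) → K) (c : Place ℂ K → Fin ρ → ℤ) (s : Fin k → Fin ρ → ℤ)
    (φ : (Fin r → ℤ) → (K ≃ₐ[ℂ] K)) : Prop :=
  ∀ v, v ≠ 0 → ∀ T, IsPullBack y c (φ v) T →
    ∃ j, T (fun i => (s j i : ℝ)) ≠ fun i => (s j i : ℝ)

/-- The class of the `ℚ`-divisor `L` in `N¹(X) ⊗ ℝ = ℝ ^ ρ`. -/
noncomputable def realClass (y : Fin (N + 1) → K) (c : Place ℂ K → Fin ρ → ℤ)
    (L : Place ℂ K → ℚ) : Fin ρ → ℝ :=
  fun i => ((cls y (fun P i => (c P i : ℚ)) L i : ℚ) : ℝ)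

/-- Let `Λ` be the group generated by the divisor classes `s j`. The class of the `ℚ`-divisor `L` is
in `Λ ⊗ ℝ`. -/
def ClassIn (y : Fin (N + 1) → K) (c : Place ℂ K → Fin ρ → ℤ) (s : Fin k → Fin ρ → ℤ)
    (L : Place ℂ K → ℚ) : Prop :=
  ∃ t : Fin k → ℝ, realClass y c L = comb s t

end

end Pool.Agent.Helper13IR
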