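import Pool.Agent.Helper13IR.Main
import Pool.Agent.N110.CC.HRes

/-!
Free divisors in a group of divisor classes of rank `r + 1` on which `ℤ ^ r` acts irreducibly.
-/

set_option autoImplicit false
set_option linter.unusedSectionVars false
set_option linter.unusedVariables false

open FF Pool.Agent.W602.GT Pool.Agent.Y172 Pool.Agent.R887
open Pool.Agent.N110 Pool.Agent.N110.PA Pool.Agent.N110.NV Pool.Agent.N492.PA Pool.Agent.N110.CC

namespace Pool.Agent.Helper13IR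

/-- a rational vector which is a real combination of linearly independent integral vectors is a
rational combination of them -/
theorem rat_coords {k ρ : ℕ} {s : Fin k → Fin ρ → ℤ}
    (hli : LinearIndependent ℝ (fun j i => (s j i : ℝ))) {z : Fin ρ → ℚ} {t : Fin k → ℝ}
    (h : (fun i => (z i : ℝ)) = comb s t) :
    ∃ (m : ℕ) (u : Fin k → ℤ), 1 ≤ m ∧ ∀ j, (m : ℝ) * t j = u j := by
  classical
  -- a rational left inverse
  obtain ⟨ι, hι⟩ : ∃ ι : (Fin k → ℚ) →ₗ[ℚ] (Fin ρ → ℚ), ∀ t i, ι t i = ∑ j, t j * (s j i : ℚ) := by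
    refine ⟨Matrix.mulVecLin (Matrix.of fun i j => (s j i : ℚ)), fun t i => ?_⟩
    rw [Matrix.mulVecLin_apply]
    show ∑ j, (s j i : ℚ) * t j = _
    exact Finset.sum_congr rfl fun j _ => mul_comm _ _
  have hker : LinearMap.ker ι = ⊥ := by
    rw [LinearMap.ker_eq_bot']
    intro x hx
    have h1 := Fintype.linearIndependent_iff.1 hli (fun j => (x j : ℝ)) (by
      funext i
      have h2 := congrFun hx i
      rw [hι] at h2
      have h3 := congrArg (fun q : ℚ => (q : ℝ)) h2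
      simp only [Finset.sum_apply, Pi.smul_apply, smul_eq_mul, Pi.zero_apply]
      push_cast at h3
      simpa using h3)
    funext j
    have := h1 j
    exact_mod_cast this
  obtain ⟨g, hg⟩ := LinearMap.exists_leftInverse_of_injective ι hker
  obtain ⟨G, hG⟩ : ∃ G : Fin k → Fin ρ → ℚ, ∀ x j, g x j = ∑ i, G j i * x i := by
    refine ⟨fun j i => g (Pi.single i 1) j, fun x j => ?_⟩
    have h1 : x = ∑ i, x i • (Pi.single i 1 : Fin ρ → ℚ) := by
      funext l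
      rw [Finset.sum_apply, Finset.sum_eq_single l]
      · simp
      · intro b _ hb
        simp [Pi.single_eq_of_ne hb.symm]
      · intro h
        exact absurd (Finset.mem_univ _) h
    conv_lhs => rw [h1]
    rw [map_sum, Finset.sum_apply]
    refine Finset.sum_congr rfl fun i _ => ?_
    rw [map_smul, Pi.smul_apply, smul_eq_mul, mul_comm]
  have hGs : ∀ j l, ∑ i, G j i * (s l i : ℚ) = if j = l then 1 else 0 := by
    intro j l
    have h1 := congrFun (LinearMap.congr_fun hg (Pi.single l 1)) j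
    rw [LinearMap.comp_apply, hG] at h1
    have h2 : ∀ i, ι (Pi.single l 1) i = (s l i : ℚ) := by
      intro i
      rw [hι, Finset.sum_eq_single l]
      · simp
      · intro b _ hb
        rw [Pi.single_eq_of_ne hb, zero_mul]
      · intro h
        exact absurd (Finset.mem_univ _) h
    simp only [h2] at h1
    rw [h1]
    show (Pi.single l (1 : ℚ) : Fin k → ℚ) j = _
    rw [Pi.single_apply]
  have ht : ∀ j, t j = ((∑ i, G j i * z i : ℚ) : ℝ) := by
    intro j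
    have h1 : ∀ i, (z i : ℝ) = ∑ l, t l * (s l i : ℝ) := by
      intro i
      have h2 : (z i : ℝ) = comb s t i := congrFun h i
      rw [h2]
      show (∑ l, t l • (fun i => (s l i : ℝ))) i = _
      rw [Finset.sum_apply]
      rfl
    push_cast
    simp only [h1, Finset.mul_sum]
    rw [Finset.sum_comm]
    have h3 : ∀ l, ∑ i, (G j i : ℝ) * (t l * (s l i : ℝ)) = t l * (if j = l then 1 else 0) := by
      intro l
      have h4 := congrArg (fun q : ℚ => (q : ℝ)) (hGs j l)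
      have h5 : (((if j = l then 1 else 0 : ℚ)) : ℝ) = if j = l then 1 else 0 := by
        split_ifs <;> simp
      push_cast at h4
      rw [h5] at h4
      rw [← h4, Finset.mul_sum]
      exact Finset.sum_congr rfl fun i _ => by ring
    simp only [h3]
    simp
  obtain ⟨d, z', hd, hz⟩ := Pool.Agent.N340.CC.common (fun j => ∑ i, G j i * z i)
  refine ⟨d, z', by exact_mod_cast hd, fun j => ?_⟩
  have h1 := congrFun hz j
  rw [Pi.smul_apply, smul_eq_mul] at h1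
  rw [ht j]
  have h2 := congrArg (fun q : ℚ => (q : ℝ)) h1
  push_cast at h2 ⊢
  exact h2.symm

theorem mem_coneOf {ρ : ℕ} {A : Set (Fin ρ → ℝ)} {x : Fin ρ → ℝ} (h : x ∈ A) : x ∈ coneOf A :=
  ⟨{x}, by simpa using h, Pool.Agent.Y167.mem_cone_self (by simp)⟩

theorem comb_smul {k ρ : ℕ} (s : Fin k → Fin ρ → ℤ) (u : ℝ) (t : Fin k → ℝ) :
    comb s (u • t) = u • comb s t := by
  unfold comb
  rw [Finset.smul_sum]
  refine Finset.sum_congr rfl fun j _ => ?_
  rw [smul_smul]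
  rfl

theorem comb_sub {k ρ : ℕ} (s : Fin k → Fin ρ → ℤ) (t u : Fin k → ℝ) :
    comb s (t - u) = comb s t - comb s u := by
  unfold comb
  rw [← Finset.sum_sub_distrib]
  refine Finset.sum_congr rfl fun j _ => ?_
  rw [← sub_smul]
  rfl

theorem comb_continuous {k ρ : ℕ} (s : Fin k → Fin ρ → ℤ) : Continuous (comb s) := by
  unfold comb
  fun_prop

section

variable {K : Type} [Field K] [Algebra ℂ K] {N n r ρ : ℕ} {y : Fin (N + 1) → K}
  {c : Place ℂ K → Fin ρ → ℤ}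

/-- the coordinates of a divisor with class in `Λ ⊗ ℝ` -/
theorem coords {k : ℕ} {s : Fin k → Fin ρ → ℤ}
    (hli : LinearIndependent ℝ (fun j i => (s j i : ℝ))) {L : Place ℂ K → ℚ}
    (hs : ClassIn y c s L) (h0 : cls y (cQ c) L ≠ 0) :
    ∃ (m : ℕ) (u : Fin k → ℤ), 1 ≤ m ∧ u ≠ 0 ∧
      comb s (fun j => (u j : ℝ)) = (m : ℝ) • toR (cls y (cQ c) L) := by
  obtain ⟨t, ht⟩ := hs
  have ht' : (fun i => ((cls y (cQ c) L i : ℚ) : ℝ)) = comb s t := ht
  obtain ⟨m, u, hm, hu⟩ := rat_coords hli ht'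
  have hm0 : (m : ℝ) ≠ 0 := by
    have : 0 < m := hm
    exact_mod_cast this.ne'
  have h1 : (fun j => (u j : ℝ)) = (m : ℝ) • t := funext fun j => (hu j).symm
  refine ⟨m, u, hm, fun h2 => h0 ?_, ?_⟩
  · have h3 : t = 0 := by
      funext j
      have h4 := hu j
      rw [h2] at h4
      simpa [hm0] using h4
    rw [h3] at ht'
    funext i
    have h5 : ((cls y (cQ c) L i : ℚ) : ℝ) = comb s 0 i := congrFun ht' i
    have h6 : comb s (0 : Fin k → ℝ) i = 0 := by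
      unfold comb
      simp
    rw [h6] at h5
    exact_mod_cast h5
  · rw [h1, comb_smul, ← ht']
    rfl

/-- the subgroup of automorphisms given by a homomorphism -/
theorem exists_range {φ : (Fin r → ℤ) → (K ≃ₐ[ℂ] K)} (hφ : ∀ u v, φ (u + v) = φ u * φ v) :
    ∃ 𝒮 : Subgroup (K ≃ₐ[ℂ] K), ∀ ψ, ψ ∈ 𝒮 ↔ ∃ v, φ v = ψ := by
  have h0 : φ 0 = 1 := phi_zero hφ
  refine ⟨{ carrier := Set.range φ, mul_mem' := ?_, one_mem' := ⟨0, h0⟩, inv_mem' := ?_ },
    fun ψ => Iff.rfl⟩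
  · rintro _ _ ⟨u, rfl⟩ ⟨v, rfl⟩
    exact ⟨u + v, hφ u v⟩
  · rintro _ ⟨u, rfl⟩
    refine ⟨-u, ?_⟩
    have h1 := hφ (-u) u
    rw [neg_add_cancel, h0] at h1
    exact eq_inv_of_mul_eq_one_left h1.symm

/-- **Invariant cones.** -/
theorem key (hy : NormalModel y) (hr : 0 < r)
    (hc : PicardBasis y c) {φ : (Fin r → ℤ) → (K ≃ₐ[ℂ] K)}
    (hφ : ∀ u v, φ (u + v) = φ u * φ v) (hps : ∀ v, PseudoAut (φ v) y)
    {s : Fin (r + 1) → Fin ρ → ℤ} (hli : LinearIndependent ℝ (fun j i => (s j i : ℝ)))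
    (hst : ∀ v, PreservesSpan y c s (φ v)) (hirr : IrreducibleOn y c s φ)
    (hfa : FaithfulOn y c s φ) {L₀ L₁ L₂ : Place ℂ K → ℚ}
    (h0 : cls y (cQ c) L₀ ≠ 0) (hs₀ : ClassIn y c s L₀)
    (h1 : cls y (cQ c) L₁ ≠ 0) (hs₁ : ClassIn y c s L₁) (hp₁ : toR (cls y (cQ c) L₁) ∈ CE y c)
    (hs₂ : ClassIn y c s L₂)
    {D : Set (Fin ρ → ℝ)} (hadd : ∀ x ∈ D, ∀ z ∈ D, x + z ∈ D)
    (hsmul : ∀ t : ℝ, 0 ≤ t → ∀ x ∈ D, t • x ∈ D)
    (hD : ∀ v T, IsPullBack y c (φ v) T → ∀ x ∈ D, T x ∈ D) (hDE : D ⊆ CE y c)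
    (h0D : toR (cls y (cQ c) L₀) ∈ D) :
    ∃ k : ℕ, 1 ≤ k ∧ toR (cls y (cQ c) L₁) ∈ D ∧
      (k : ℝ) • toR (cls y (cQ c) L₁) - toR (cls y (cQ c) L₂) ∈ D := by
  obtain ⟨𝒮, h𝒮⟩ := exists_range hφ
  obtain ⟨m₀, u₀, hm₀, hu₀, hu₀c⟩ := coords hli hs₀ h0
  obtain ⟨m, u, hm, hu, huc⟩ := coords hli hs₁ h1
  have hm0' : (0 : ℝ) < m := by exact_mod_cast hm
  have hpc := pc_eff hc.numClasses
  have hfree : comb s (fun j => (u₀ j : ℝ)) ∈ D := by
    rw [hu₀c]
    exact hsmul _ (Nat.cast_nonneg _) _ h0D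
  have hpsef : comb s (fun j => (u j : ℝ)) ∈ CE y c := by
    rw [huc]
    exact hpc.smul _ (Nat.cast_nonneg _) _ hp₁
  obtain ⟨-, hM2, hM3, -, -⟩ := mainIR hy hr hc (𝒮 := 𝒮) (fun ψ hψ => by
    obtain ⟨v, rfl⟩ := (h𝒮 ψ).1 hψ
    exact hps v) hφ (fun v => (h𝒮 _).2 ⟨v, rfl⟩) hli (fun ψ hψ => by
    obtain ⟨v, rfl⟩ := (h𝒮 ψ).1 hψ
    exact hst v) hirr hfa hu₀ (hDE hfree)
  have h4 := hM2 D hadd hsmul (fun ψ hψ T hT x hx => by
      obtain ⟨v, rfl⟩ := (h𝒮 ψ).1 hψ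
      exact hD v T hT x hx) hfree
  have h5 := hM3 u hu hpsef
  obtain ⟨t₂, ht₂⟩ := hs₂
  have ht₂' : toR (cls y (cQ c) L₂) = comb s t₂ := ht₂
  -- a multiple of `u` minus `t₂` is in the interior
  obtain ⟨I, hI⟩ : ∃ I : Set (Fin (r + 1) → ℝ), I = interior {t | comb s t ∈ CE y c} := ⟨_, rfl⟩
  rw [← hI] at h5
  have hIo : IsOpen I := hI ▸ isOpen_interior
  have hlim : Filter.Tendsto (fun k : ℕ => (fun j => (u j : ℝ)) - ((m : ℝ) / (k + 1 : ℝ)) • t₂)
      Filter.atTop (nhds ((fun j => (u j : ℝ)) - (0 : ℝ) • t₂)) := by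
    refine tendsto_const_nhds.sub (Filter.Tendsto.smul_const ?_ t₂)
    have h6 := tendsto_one_div_add_atTop_nhds_zero_nat (𝕜 := ℝ)
    have h7 := h6.const_mul (m : ℝ)
    rw [mul_zero] at h7
    refine h7.congr fun k => ?_
    ring
  rw [zero_smul, sub_zero] at hlim
  obtain ⟨k, hk⟩ := (hlim.eventually (hIo.mem_nhds h5)).exists
  have hk0 : (0 : ℝ) < (k : ℝ) + 1 := by positivity
  have h7 := h4 _ (hI ▸ hk)
  rw [comb_sub, comb_smul, ← ht₂', huc] at h7
  refine ⟨k + 1, by omega, ?_, ?_⟩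
  · have h8 := h4 _ (hI ▸ h5)
    rw [huc] at h8
    have h9 := hsmul (m : ℝ)⁻¹ (inv_nonneg.2 hm0'.le) _ h8
    rwa [smul_smul, inv_mul_cancel₀ hm0'.ne', one_smul] at h9
  · have h8 := hsmul (((k : ℝ) + 1) / m) (by positivity) _ h7
    rw [smul_sub, smul_smul, smul_smul] at h8
    have e1 : ((k : ℝ) + 1) / m * m = ((k + 1 : ℕ) : ℝ) := by
      push_cast
      field_simp
    have e2 : ((k : ℝ) + 1) / m * (m / ((k : ℝ) + 1)) = 1 := by
      field_simp
    rwa [e1, e2, one_smul] at h8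

end

end Pool.Agent.Helper13IR
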