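import Pool.Agent.Helper13IR.Mat
import Pool.Agent.Helper13IR.Defs
import Pool.Agent.N110.CC.SA

/-!
Cones in a group of divisor classes of rank `r + 1` on which `ℤ ^ r` acts irreducibly and faithfully.
Parts of the proof are from `N110.CC.W3`.
-/

set_option autoImplicit false
set_option linter.unusedSectionVars false
set_option linter.unusedVariables false

open FF Pool.Agent.W602.GT Pool.Agent.Y172 Pool.Agent.R887
open Pool.Agent.Y167 (cone cone_image cone_ind zero_mem_cone mem_cone_self cone_add cone_smul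
  cone_mono)
open Pool.Agent.N110 Pool.Agent.N110.PA Pool.Agent.N110.NV Pool.Agent.N492.PA Pool.Agent.N110.CC
open Pool.Agent.N165.KM (interior_add_mem interior_smul_mem interior_sub exists_pos_functional HasFD
  Sandwich IntL)
open Filter Topology

namespace Pool.Agent.Helper13IR

/-- a convex cone which contains a spanning set has interior points -/
theorem interior_of_span {k : ℕ} {C : Set (Fin k → ℝ)} (h0 : (0 : Fin k → ℝ) ∈ C)
    (hadd : ∀ x ∈ C, ∀ z ∈ C, x + z ∈ C) (hsmul : ∀ t : ℝ, 0 ≤ t → ∀ x ∈ C, t • x ∈ C)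
    (hspan : Submodule.span ℝ C = ⊤) : (interior C).Nonempty := by
  have hconv : Convex ℝ C := by
    intro x hx z hz a b ha hb _
    exact hadd _ (hsmul a ha x hx) _ (hsmul b hb z hz)
  rw [hconv.interior_nonempty_iff_affineSpan_eq_top]
  have h1 : insert (0 : Fin k → ℝ) C = C := Set.insert_eq_of_mem h0
  have h2 := affineSpan_insert_zero (k := ℝ) C
  rw [h1, hspan] at h2
  refine SetLike.coe_injective ?_
  rw [h2]
  rfl

section

variable {K : Type} [Field K] [Algebra ℂ K] {N n r ρ : ℕ} {y : Fin (N + 1) → K}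
  {c : Place ℂ K → Fin ρ → ℤ} {𝒮 : Subgroup (K ≃ₐ[ℂ] K)}

/-- **The cones in an irreducible subspace.** -/
theorem mainIR (hy : NormalModel y) (hr : 0 < r)
    (hc : PicardBasis y c) (h𝒮 : ∀ φ ∈ 𝒮, PseudoAut φ y) {φ : (Fin r → ℤ) → (K ≃ₐ[ℂ] K)}
    (hφ : ∀ u v, φ (u + v) = φ u * φ v) (hφ𝒮 : ∀ v, φ v ∈ 𝒮)
    {s : Fin (r + 1) → Fin ρ → ℤ} (hli : LinearIndependent ℝ (fun j i => (s j i : ℝ)))
    (hst : ∀ ψ ∈ 𝒮, PreservesSpan y c s ψ) (hirr : IrreducibleOn y c s φ)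
    (hfa : FaithfulOn y c s φ) {t₀ : Fin (r + 1) → ℤ} (ht₀0 : t₀ ≠ 0)
    (ht₀ : comb s (fun i => (t₀ i : ℝ)) ∈ CE y c) :
    (∀ D : Set (Fin ρ → ℝ), IsClosed D → (∀ x ∈ D, ∀ z ∈ D, x + z ∈ D) →
      (∀ t : ℝ, 0 ≤ t → ∀ x ∈ D, t • x ∈ D) →
      (∀ ψ ∈ 𝒮, ∀ T, IsPullBack y c ψ T → ∀ x ∈ D, T x ∈ D) →
      comb s (fun i => (t₀ i : ℝ)) ∈ D → ∀ t, comb s t ∈ CE y c → comb s t ∈ D) ∧
    (∀ D : Set (Fin ρ → ℝ), (∀ x ∈ D, ∀ z ∈ D, x + z ∈ D) →
      (∀ t : ℝ, 0 ≤ t → ∀ x ∈ D, t • x ∈ D) →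
      (∀ ψ ∈ 𝒮, ∀ T, IsPullBack y c ψ T → ∀ x ∈ D, T x ∈ D) →
      comb s (fun i => (t₀ i : ℝ)) ∈ D → ∀ t, t ∈ interior {t | comb s t ∈ CE y c} →
      comb s t ∈ D) ∧
    (∀ t : Fin (r + 1) → ℤ, t ≠ 0 → comb s (fun i => (t i : ℝ)) ∈ CE y c →
      (fun i => (t i : ℝ)) ∈ interior {t | comb s t ∈ CE y c}) ∧
    (∀ t, comb s t ∈ effCone y c → t ≠ 0 → t ∈ interior {t | comb s t ∈ CE y c}) ∧
    (comb s (fun i => (t₀ i : ℝ)) ∈ effCone y c →
      HasFundDomain {T' | ∃ ψ ∈ 𝒮, IsPullBackOn y c s ψ T'} {t | comb s t ∈ effCone y c}) := by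
  classical
  have hρ : 0 < ρ := by
    rcases Nat.eq_zero_or_pos ρ with h | h
    · exfalso
      subst h
      have h1 := hli.ne_zero 0
      exact h1 (funext fun i => i.elim0)
    · exact h
  obtain ⟨M, hM⟩ := exists_rep hy hc h𝒮
  have hpc := pc_eff hc.numClasses
  obtain ⟨hE1, hE2⟩ := Pool.Agent.N40.CC.leafEFF K N ρ y hy c hc
  obtain ⟨e, he⟩ : ∃ e : Fin (r + 1) → Fin ρ → ℝ, e = fun j i => (s j i : ℝ) := ⟨_, rfl⟩
  rw [← he] at hli
  obtain ⟨ι, hι⟩ : ∃ ι : (Fin (r + 1) → ℝ) →ₗ[ℝ] (Fin ρ → ℝ), ∀ t, ι t = ∑ i, t i • e i :=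
    ⟨Fintype.linearCombination ℝ e, fun t => Fintype.linearCombination_apply ℝ e t⟩
  have hcomb : ∀ t, comb s t = ι t := fun t => by
    rw [hι, he]
    rfl
  have hιinj : ∀ t, ι t = 0 → t = 0 := by
    intro t ht
    rw [hι] at ht
    exact funext fun i => Fintype.linearIndependent_iff.1 hli t ht i
  have hinj : ∀ t u, ι t = ι u → t = u := fun t u h =>
    sub_eq_zero.1 (hιinj _ (by rw [map_sub, h, sub_self]))
  have hιs : ∀ j, ι (Pi.single j 1) = e j := by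
    intro j
    rw [hι, Finset.sum_eq_single j]
    · simp
    · intro i _ hij
      rw [Pi.single_eq_of_ne hij, zero_smul]
    · intro h
      exact absurd (Finset.mem_univ _) h
  have hιc : Continuous ι := LinearMap.continuous_of_finiteDimensional ι
  -- the matrices
  have hex : ∀ ψ ∈ 𝒮, ∀ j, ∃ a : Fin (r + 1) → ℤ, TR (M ψ) (e j) = ι (fun i => (a i : ℝ)) := by
    intro ψ hψ j
    obtain ⟨a, ha⟩ := hst ψ hψ (hM.TE ⟨ψ, hψ⟩) (hM.isPull ⟨ψ, hψ⟩) j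
    refine ⟨a, ?_⟩
    rw [hM.TE_apply, hcomb] at ha
    rw [he]
    exact ha
  choose! a ha using hex
  obtain ⟨M', hM'⟩ : ∃ M' : (K ≃ₐ[ℂ] K) → Matrix (Fin (r + 1)) (Fin (r + 1)) ℤ,
      ∀ ψ i j, M' ψ i j = a ψ j i := ⟨fun ψ => Matrix.of fun i j => a ψ j i, fun _ _ _ => rfl⟩
  have hcomp : ∀ ψ ∈ 𝒮, ∀ t, ι (TR (M' ψ) t) = TR (M ψ) (ι t) := by
    intro ψ hψ
    have h1 : ι ∘ₗ TR (M' ψ) = TR (M ψ) ∘ₗ ι := by
      refine (Pi.basisFun ℝ (Fin (r + 1))).ext fun j => ?_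
      rw [LinearMap.comp_apply, LinearMap.comp_apply, Pi.basisFun_apply, hιs, ha ψ hψ j]
      congr 1
      funext i
      rw [TR, Matrix.toLin'_apply, Matrix.mulVec_single_one]
      show ((M' ψ i j : ℤ) : ℝ) = _
      rw [hM']
    exact fun t => LinearMap.congr_fun h1 t
  have hone : TR (M' 1) = 1 := LinearMap.ext fun t => hinj _ _ (by
    rw [hcomp 1 𝒮.one_mem, hM.one, TR_one]
    rfl)
  have hmul : ∀ ψ ∈ 𝒮, ∀ χ ∈ 𝒮, TR (M' (ψ * χ)) = TR (M' ψ) * TR (M' χ) := by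
    intro ψ hψ χ hχ
    refine LinearMap.ext fun t => hinj _ _ ?_
    rw [hcomp _ (𝒮.mul_mem hψ hχ), hM.mul ψ hψ χ hχ, TR_mul]
    show TR (M ψ) (TR (M χ) (ι t)) = ι (TR (M' ψ) (TR (M' χ) t))
    rw [hcomp ψ hψ, hcomp χ hχ]
  obtain ⟨TE', hTE'⟩ : ∃ TE' : 𝒮 → ((Fin (r + 1) → ℝ) ≃ₗ[ℝ] (Fin (r + 1) → ℝ)),
      ∀ ψ t, TE' ψ t = TR (M' ψ) t :=
    ⟨fun ψ => LinearEquiv.ofLinear (TR (M' ψ)) (TR (M' (ψ : K ≃ₐ[ℂ] K)⁻¹))
      (by
        show TR (M' ψ) * TR (M' (ψ : K ≃ₐ[ℂ] K)⁻¹) = 1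
        rw [← hmul _ ψ.2 _ (𝒮.inv_mem ψ.2), mul_inv_cancel, hone])
      (by
        show TR (M' (ψ : K ≃ₐ[ℂ] K)⁻¹) * TR (M' ψ) = 1
        rw [← hmul _ (𝒮.inv_mem ψ.2) _ ψ.2, inv_mul_cancel, hone]), fun _ _ => rfl⟩
  -- the cones
  obtain ⟨C', hC'⟩ : ∃ C' : Set (Fin (r + 1) → ℝ), C' = ι ⁻¹' CE y c := ⟨_, rfl⟩
  obtain ⟨E', hE'⟩ : ∃ E' : Set (Fin (r + 1) → ℝ), E' = ι ⁻¹' effCone y c := ⟨_, rfl⟩
  have hmem : ∀ t, t ∈ C' ↔ ι t ∈ CE y c := fun t => by rw [hC']; rfl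
  have hmemE : ∀ t, t ∈ E' ↔ ι t ∈ effCone y c := fun t => by rw [hE']; rfl
  have hPC : PC C' := by
    refine ⟨?_, ?_, ?_, ?_⟩
    · rw [hC']
      exact hpc.closed.preimage hιc
    · intro x hx z hz
      rw [hmem] at hx hz ⊢
      rw [map_add]
      exact hpc.add _ hx _ hz
    · intro b hb x hx
      rw [hmem] at hx ⊢
      rw [map_smul]
      exact hpc.smul b hb _ hx
    · intro x hx hx'
      rw [hmem] at hx hx'
      rw [map_neg] at hx'
      exact hιinj x (hpc.pointed _ hx hx')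
  have hpres := pres_S hy hc hM
  have hpresE := presE_S hM
  have hφ0 : φ 0 = 1 := phi_zero hφ
  obtain ⟨u₀, hu₀⟩ : ∃ u₀ : Fin (r + 1) → ℝ, u₀ = fun i => (t₀ i : ℝ) := ⟨_, rfl⟩
  rw [← hu₀] at ht₀
  have hu₀C : u₀ ∈ C' := by
    rw [hmem, ← hcomb]
    exact ht₀
  have hpresC : ∀ v, ∀ x ∈ C', TR (M' (φ v)) x ∈ C' := by
    intro v x hx
    rw [hmem] at hx ⊢
    rw [hcomp _ (hφ𝒮 v)]
    exact hpres _ (hφ𝒮 v) _ hx
  -- irreducibility
  have hirr' : ∀ t : Fin (r + 1) → ℤ, t ≠ 0 → ∀ x : Fin (r + 1) → ℝ,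
      x ∈ Submodule.span ℝ (Set.range fun v => TR (M' (φ v)) (fun i => (t i : ℝ))) := by
    intro t ht x
    obtain ⟨S, hS⟩ : ∃ S : Submodule ℝ (Fin (r + 1) → ℝ), S = Submodule.span ℝ
      (Set.range fun v => TR (M' (φ v)) (fun i => (t i : ℝ))) := ⟨_, rfl⟩
    rw [← hS]
    have h1 : ∀ j, e j ∈ S.map ι := by
      intro j
      have h2 := hirr t ht j
      have h3 : Submodule.span ℝ {x | ∃ v T, IsPullBack y c (φ v) T ∧
          x = T (comb s (fun i => (t i : ℝ)))} ≤ S.map ι := by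
        rw [Submodule.span_le]
        rintro _ ⟨v, T, hT, rfl⟩
        refine ⟨TR (M' (φ v)) (fun i => (t i : ℝ)), ?_, ?_⟩
        · rw [hS]
          exact Submodule.subset_span ⟨v, rfl⟩
        · rw [hcomp _ (hφ𝒮 v), pull_ext hc hT (hM.isPull ⟨φ v, hφ𝒮 v⟩), hM.TE_apply, hcomb]
      have h4 := h3 h2
      rw [he]
      exact h4
    have h2 : ι x ∈ S.map ι := by
      rw [hι]
      exact Submodule.sum_mem _ fun j _ => Submodule.smul_mem _ _ (h1 j)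
    obtain ⟨z, hz, hzx⟩ := h2
    rwa [← hinj _ _ hzx]
  have hfa' : ∀ v, v ≠ 0 → M' (φ v) ≠ 1 := by
    intro v hv h1
    obtain ⟨j, hj⟩ := hfa v hv (hM.TE ⟨φ v, hφ𝒮 v⟩) (hM.isPull ⟨φ v, hφ𝒮 v⟩)
    apply hj
    have h2 := hcomp _ (hφ𝒮 v) (Pi.single j 1)
    rw [h1, TR_one, hιs, he] at h2
    rw [hM.TE_apply]
    have h3 : ι ((1 : (Fin (r + 1) → ℝ) →ₗ[ℝ] (Fin (r + 1) → ℝ)) (Pi.single j 1)) =
        fun i => (s j i : ℝ) := by
      have h4 := hιs j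
      rw [he] at h4
      exact h4
    rw [h3] at h2
    exact h2.symm
  have hM0 : M' (φ 0) = 1 := by
    refine Matrix.ext_of_mulVec_single fun j => ?_
    have h3 := LinearMap.congr_fun hone (fun i => ((Pi.single j 1 : Fin (r + 1) → ℤ) i : ℝ))
    rw [← hφ0, TR_cast] at h3
    rw [Matrix.one_mulVec]
    funext i
    have h4 : (((M' (φ 0)).mulVec (Pi.single j 1) i : ℤ) : ℝ) =
        ((Pi.single j 1 : Fin (r + 1) → ℤ) i : ℝ) := congrFun h3 i
    exact_mod_cast h4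
  have hMadd : ∀ u v, M' (φ (u + v)) = M' (φ u) * M' (φ v) := by
    intro u v
    have h1 : TR (M' (φ (u + v))) = TR (M' (φ u) * M' (φ v)) := by
      rw [hφ, hmul _ (hφ𝒮 u) _ (hφ𝒮 v), TR_mul]
    refine Matrix.ext_of_mulVec_single fun j => ?_
    have h3 := LinearMap.congr_fun h1 (fun i => ((Pi.single j 1 : Fin (r + 1) → ℤ) i : ℝ))
    rw [TR_cast, TR_cast] at h3
    funext i
    have h4 := congrFun h3 i
    exact_mod_cast h4
  obtain ⟨a0, δ, ha0, hδ, hg⟩ := growth hr (A := fun v => M' (φ v)) hM0 hMadd hirr' hfa'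
  have hgr : ∀ v, ∑ i, ∑ j, |(M' (φ v) i j : ℝ)| ≤
      (r + 1 : ℝ) * ∑ j, ‖TR (M' (φ v)) (Pi.single j 1)‖ := by
    intro v
    rw [Finset.sum_comm, Finset.mul_sum]
    refine Finset.sum_le_sum fun j _ => ?_
    have h3 : ∀ i, |(M' (φ v) i j : ℝ)| ≤ ‖TR (M' (φ v)) (Pi.single j 1)‖ := by
      intro i
      have h4 := norm_le_pi_norm (TR (M' (φ v)) (Pi.single j 1)) i
      have h5 : TR (M' (φ v)) (Pi.single j 1) i = (M' (φ v) i j : ℝ) := by
        rw [TR, Matrix.toLin'_apply, Matrix.mulVec_single_one]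
        rfl
      rwa [h5, Real.norm_eq_abs] at h4
    refine (Finset.sum_le_sum fun i _ => h3 i).trans (le_of_eq ?_)
    rw [Finset.sum_const, Finset.card_univ, Fintype.card_fin, nsmul_eq_mul]
    push_cast
    ring
  have hr0 : (0 : ℝ) < r + 1 := by positivity
  have hC'0 : (0 : Fin (r + 1) → ℝ) ∈ C' := by
    have := hPC.smul 0 le_rfl _ hu₀C
    rwa [zero_smul] at this
  have hint0 : (interior C').Nonempty := by
    refine interior_of_span hC'0 hPC.add hPC.smul (top_le_iff.1 fun x _ => ?_)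
    refine Submodule.span_mono ?_ (hirr' t₀ ht₀0 x)
    rintro _ ⟨v, rfl⟩
    rw [← hu₀]
    exact hpresC v _ hu₀C
  have hact : Act r C' (fun v => TR (M' (φ v))) := by
    refine ⟨hr, hPC, hint0, ?_, fun u v => ?_, hpresC, a0 / (r + 1), δ,
      div_pos ha0 hr0, hδ, fun v => ?_⟩
    · show TR (M' (φ 0)) = 1
      rw [hφ0, hone]
    · show TR (M' (φ (u + v))) = TR (M' (φ u)) * TR (M' (φ v))
      rw [hφ, hmul _ (hφ𝒮 u) _ (hφ𝒮 v)]
    · rw [div_mul_eq_mul_div, div_le_iff₀ hr0]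
      have h1 := hg v
      have h2 := hgr v
      linarith
  obtain ⟨W, b, st⟩ := exists_str Pool.Agent.N386.CC.leafPF
    (Pool.Agent.N707.CC.leafCE Pool.Agent.N386.CC.leafPF) Pool.Agent.N769.CC.leafLIN
    (Pool.Agent.N394.CC.leafIND Pool.Agent.N395.CC.leafSEP) hact
  have hTint : ∀ v, ∀ x : Fin (r + 1) → ℝ, (∀ i, ∃ m : ℤ, x i = m) →
      ∀ i, ∃ m : ℤ, TR (M' (φ v)) x i = m := fun v x hx => TR_int _ hx
  have hset' : {t | comb s t ∈ CE y c} = C' := by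
    ext t
    rw [hmem, ← hcomb]
    exact Iff.rfl
  rw [hset']
  have hu₀int : u₀ ∈ interior C' := by
    refine st.integral hTint hu₀C (fun i => ⟨t₀ i, by rw [hu₀]⟩) fun h0 => ht₀0 ?_
    funext i
    have h1 : (t₀ i : ℝ) = 0 := by
      have h2 := congrFun h0 i
      rwa [hu₀] at h2
    exact_mod_cast h1
  have hrig : ∀ D : Set (Fin ρ → ℝ), (∀ x ∈ D, ∀ z ∈ D, x + z ∈ D) →
      (∀ t : ℝ, 0 ≤ t → ∀ x ∈ D, t • x ∈ D) →
      (∀ ψ ∈ 𝒮, ∀ T, IsPullBack y c ψ T → ∀ x ∈ D, T x ∈ D) →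
      comb s u₀ ∈ D → C' ⊆ closure (ι ⁻¹' D) ∧ interior C' ⊆ ι ⁻¹' D := by
    intro D hadd hsmul hD hx
    have hE0 : (0 : Fin (r + 1) → ℝ) ∈ ι ⁻¹' D := by
      show ι 0 ∈ D
      rw [map_zero]
      have := hsmul 0 le_rfl _ hx
      rwa [zero_smul] at this
    have hEadd : ∀ x ∈ ι ⁻¹' D, ∀ z ∈ ι ⁻¹' D, x + z ∈ ι ⁻¹' D := fun x hx z hz => by
      show ι (x + z) ∈ D
      rw [map_add]
      exact hadd _ hx _ hz
    have hEsmul : ∀ b : ℝ, 0 ≤ b → ∀ x ∈ ι ⁻¹' D, b • x ∈ ι ⁻¹' D := fun b hb x hx => by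
      show ι (b • x) ∈ D
      rw [map_smul]
      exact hsmul b hb _ hx
    have hEpres : ∀ v, ∀ x ∈ ι ⁻¹' D, TR (M' (φ v)) x ∈ ι ⁻¹' D := fun v x hx => by
      show ι (TR (M' (φ v)) x) ∈ D
      rw [hcomp _ (hφ𝒮 v)]
      exact hD (φ v) (hφ𝒮 v) (hM.TE ⟨φ v, hφ𝒮 v⟩) (hM.isPull ⟨φ v, hφ𝒮 v⟩) _ hx
    have h1 : C' ⊆ closure (ι ⁻¹' D) := by
      refine st.rigid (D := closure (ι ⁻¹' D)) isClosed_closure (fun x hx z hz => ?_)
        (fun b hb x hx => ?_) (fun v x hx => ?_) (x := u₀) (subset_closure ?_) hu₀int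
      · exact map_mem_closure₂ continuous_add hx hz fun a ha b hb => hEadd a ha b hb
      · exact map_mem_closure (continuous_const_smul b) hx fun a ha => hEsmul b hb a ha
      · exact map_mem_closure (LinearMap.continuous_of_finiteDimensional _) hx
          fun a ha => hEpres v a ha
      · show ι u₀ ∈ D
        rw [← hcomb]
        exact hx
    refine ⟨h1, ?_⟩
    have hconv : Convex ℝ (ι ⁻¹' D) := by
      intro x hx z hz a b ha hb _
      exact hEadd _ (hEsmul a ha x hx) _ (hEsmul b hb z hz)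
    have h2 : interior C' ⊆ interior (closure (ι ⁻¹' D)) := interior_mono h1
    have h3 : (interior (ι ⁻¹' D)).Nonempty := by
      rw [hconv.interior_nonempty_iff_affineSpan_eq_top]
      have h4 := (hconv.closure.interior_nonempty_iff_affineSpan_eq_top).1 (hint0.mono h2)
      refine top_le_iff.1 (h4 ▸ affineSpan_le.2 ?_)
      exact closure_minimal (subset_affineSpan ℝ _)
        (AffineSubspace.closed_of_finiteDimensional (affineSpan ℝ (ι ⁻¹' D)))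
    rw [hconv.interior_closure_eq_interior_of_nonempty_interior h3] at h2
    exact h2.trans interior_subset
  -- effective classes
  have hbig : ∀ t, t ∈ E' → t ≠ 0 → t ∈ interior C' := by
    intro t ht ht0
    rw [hmemE, ← hcomb] at ht
    obtain ⟨t', ht'0, ht'E, ε, hε, hsub⟩ := eff_approx ht ht0
    obtain ⟨d, z, hd, hz⟩ := Pool.Agent.N340.CC.common t'
    have hd' : (0 : ℝ) < d := by exact_mod_cast hd
    have hz1 : ∀ i, ((z i : ℤ) : ℝ) = d * (t' i : ℝ) := by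
      intro i
      have h1 := congrFun hz i
      rw [Pi.smul_apply, smul_eq_mul] at h1
      have h2 : ((z i : ℤ) : ℚ) = d * t' i := h1
      have h3 := congrArg (fun q : ℚ => (q : ℝ)) h2
      push_cast at h3
      exact h3
    have h1 : (fun j => (t' j : ℝ)) ∈ C' := by
      rw [hmem, ← hcomb]
      exact hE1 ht'E
    have h2 : (d : ℝ) • (fun j => (t' j : ℝ)) ∈ interior C' := by
      refine st.integral hTint (hPC.smul d hd'.le _ h1) (fun i => ⟨z i, ?_⟩) (fun h0 => ?_)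
      · rw [Pi.smul_apply, smul_eq_mul, hz1]
      · apply ht'0
        funext i
        have h3 := congrFun h0 i
        rw [Pi.smul_apply, smul_eq_mul, Pi.zero_apply] at h3
        have h4 := (mul_eq_zero.1 h3).resolve_left hd'.ne'
        exact_mod_cast h4
    have h3 := interior_smul_mem hPC.smul (inv_pos.2 hd') h2
    rw [smul_smul, inv_mul_cancel₀ hd'.ne', one_smul] at h3
    have h4 : t - ε • (fun j => (t' j : ℝ)) ∈ C' := by
      rw [hmem, ← hcomb]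
      exact hE1 hsub
    have h5 := interior_add_mem hPC.add (interior_smul_mem hPC.smul hε h3) h4
    rwa [add_sub_cancel] at h5
  refine ⟨fun D hcl hadd hsmul hD hx t ht => ?_, fun D hadd hsmul hD hx t ht => ?_,
    fun t ht0 ht => ?_, fun t ht ht0 => ?_, fun heff => ?_⟩
  · rw [← hu₀] at hx
    have h1 := (hrig D hadd hsmul hD hx).1
    rw [(hcl.preimage hιc).closure_eq] at h1
    rw [hcomb] at ht ⊢
    exact h1 ((hmem t).2 ht)
  · rw [← hu₀] at hx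
    rw [hcomb]
    exact (hrig D hadd hsmul hD hx).2 ht
  · refine st.integral hTint ?_ (fun i => ⟨t i, rfl⟩) fun h0 => ht0 ?_
    · rw [hmem, ← hcomb]
      exact ht
    · funext i
      have h1 : (t i : ℝ) = 0 := congrFun h0 i
      exact_mod_cast h1
  · rw [hcomb] at ht
    exact hbig t ((hmemE t).2 ht) ht0
  rw [← hu₀] at heff
  have hintE : interior C' ⊆ E' := by
    have h1 := (hrig (effCone y c) (fun x hx z hz => coneOf_add hx hz)
      (fun t ht x hx => coneOf_smul hx ht) (fun ψ hψ T hT x hx => by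
        have h2 := hpresE ψ hψ x hx
        rwa [pull_ext hc hT (hM.isPull ⟨ψ, hψ⟩), hM.TE_apply]) heff).2
    rw [hE']
    exact h1
  -- the fundamental domain
  obtain ⟨F, hF, hcov⟩ := st.cover Pool.Agent.N362.CC.leafCOV
  obtain ⟨pull, hpull⟩ : ∃ pull : 𝒮 → ((Fin (r + 1) → ℝ) ≃ₗ[ℝ] (Fin (r + 1) → ℝ)),
    ∀ ψ, pull ψ = TE' ψ⁻¹ := ⟨_, fun _ => rfl⟩
  have hpresE' : ∀ ψ ∈ 𝒮, ∀ x ∈ E', TR (M' ψ) x ∈ E' := by
    intro ψ hψ x hx
    rw [hmemE] at hx ⊢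
    rw [hcomp ψ hψ]
    exact hpresE ψ hψ _ hx
  have hfd : HasFD pull E' := by
    refine HasFD.of_cover (C := C') ⟨hPC.closed, hPC.add, hPC.smul, hPC.pointed, hint0,
      fun x hx => (hmem x).2 (hE1 ((hmemE x).1 hx)), hintE, fun x hx z hz => ?_,
      fun t ht x hx => ?_⟩
      (fun f g => ?_) (fun f x hx => ?_)
      (fun f x hx => ?_) (fun x hx => ?_) F (fun a ha => ⟨(hF a ha).2, hintE (hF a ha).1⟩)
      (fun x hx => ?_)
    · rw [hmemE] at hx hz ⊢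
      rw [map_add]
      exact coneOf_add hx hz
    · rw [hmemE] at hx ⊢
      rw [map_smul]
      exact coneOf_smul hx ht
    · rw [hpull, hpull, hpull]
      apply LinearEquiv.ext
      intro t
      show TE' (f * g)⁻¹ t = TE' g⁻¹ (TE' f⁻¹ t)
      rw [hTE', hTE', hTE', mul_inv_rev]
      have h1 := hmul _ (g⁻¹).2 _ (f⁻¹).2
      exact LinearMap.congr_fun h1 t
    · rw [hpull, hTE']
      exact TR_int _ hx
    · rw [hpull, hTE']
      exact hpresE' _ (f⁻¹).2 x hx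
    · by_cases hx0 : x = 0
      · exact ⟨∅, by simp, hx0 ▸ zero_mem_cone _⟩
      · obtain ⟨v, hv⟩ := hcov x (hbig x hx hx0)
        refine ⟨F.image (TR (M' (φ (-v)))), fun a ha => ?_, ?_⟩
        · obtain ⟨a', ha', rfl⟩ := Finset.mem_image.1 ha
          refine ⟨TR_int _ (hF a' ha').2, hpresE' _ (hφ𝒮 _) _ (hintE (hF a' ha').1)⟩
        · have h1 := cone_image (TR (M' (φ (-v)))) hv
          have h2 : TR (M' (φ (-v))) (TR (M' (φ v)) x) = x := by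
            have h3 := hmul _ (hφ𝒮 (-v)) _ (hφ𝒮 v)
            rw [← hφ, neg_add_cancel, hφ0, hone] at h3
            exact (LinearMap.congr_fun h3 x).symm
          rwa [h2] at h1
    · obtain ⟨v, hv⟩ := hcov x hx
      refine ⟨(⟨φ v, hφ𝒮 v⟩ : 𝒮)⁻¹, ?_⟩
      rw [hpull, inv_inv, hTE']
      exact hv
  obtain ⟨S, hS, hU, hdis⟩ := hfd
  have hset : ∀ T, (∃ ψ ∈ 𝒮, IsPullBackOn y c s ψ T) ↔ ∃ f : 𝒮, T = pull f := by
    intro T
    constructor
    · rintro ⟨ψ, hψ, T₁, hT₁, hT⟩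
      refine ⟨(⟨ψ, hψ⟩ : 𝒮)⁻¹, ?_⟩
      rw [hpull, inv_inv]
      apply LinearEquiv.ext
      intro t
      apply hinj
      have h1 := pull_ext hc hT₁ (hM.isPull ⟨ψ, hψ⟩)
      have h2 := hT t
      rw [hcomb, hcomb, h1, hM.TE_apply] at h2
      rw [h2, hTE', hcomp ψ hψ]
    · rintro ⟨f, rfl⟩
      rw [hpull]
      refine ⟨_, (f⁻¹).2, hM.TE f⁻¹, hM.isPull f⁻¹, fun t => ?_⟩
      rw [hcomb, hcomb, hTE', hM.TE_apply, hcomp _ (f⁻¹).2]
  have hEset : {t | comb s t ∈ effCone y c} = E' := by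
    ext t
    rw [hmemE, ← hcomb]
    exact Iff.rfl
  rw [hEset]
  refine ⟨S, hS, ?_, fun T hT hT1 => ?_⟩
  · rw [hU]
    ext x
    simp only [Set.mem_iUnion, Set.mem_setOf_eq]
    constructor
    · rintro ⟨f, hf⟩
      exact ⟨pull f, (hset _).2 ⟨f, rfl⟩, hf⟩
    · rintro ⟨T, hT, hx⟩
      obtain ⟨f, rfl⟩ := (hset T).1 hT
      exact ⟨f, hx⟩
  · obtain ⟨f, rfl⟩ := (hset T).1 hT
    exact hdis f hT1

end

end Pool.Agent.Helper13IR
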