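import Pool.Agent.N110.CC.W3

/-!
Commuting integral matrices: an irreducible and faithful representation of `ℤ ^ r` grows
exponentially in all directions.
-/

set_option autoImplicit false
set_option linter.unusedSectionVars false

open Pool.Agent.N110 Pool.Agent.N110.PA Pool.Agent.N110.CC
open Polynomial IntermediateField

namespace Pool.Agent.Helper13IR

section

variable {k : ℕ}

/-- the complex matrix -/
noncomputable def MC (A : Matrix (Fin k) (Fin k) ℤ) : Matrix (Fin k) (Fin k) ℂ :=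
  A.map (Int.castRingHom ℂ)

theorem MC_pow (A : Matrix (Fin k) (Fin k) ℤ) (m : ℕ) : MC A ^ m = MC (A ^ m) :=
  ((Int.castRingHom ℂ).mapMatrix.map_pow A m).symm

/-- eigenvalues of matrices of subexponential growth -/
theorem eig_le {A : Matrix (Fin k) (Fin k) ℤ}
    (hB : ∀ δ : ℝ, 0 < δ → ∃ B : ℝ, ∀ (m : ℕ) (i j : Fin k), |((A ^ m) i j : ℝ)| ≤
      B * Real.exp (δ * m)) {μ : ℂ} (hμ : (MC A).charpoly.IsRoot μ) : ‖μ‖ ≤ 1 := by
  by_contra hcon
  push Not at hcon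
  have h1 : Module.End.HasEigenvalue (Matrix.toLin' (MC A)) μ := by
    rw [Module.End.hasEigenvalue_iff_isRoot_charpoly, Matrix.charpoly_toLin']
    exact hμ
  obtain ⟨w, hw⟩ := h1.exists_hasEigenvector
  have hw1 : ∀ m : ℕ, (MC A ^ m).mulVec w = μ ^ m • w := by
    intro m
    have h2 := hw.pow_apply m
    rw [← Matrix.toLin'_pow, Matrix.toLin'_apply] at h2
    exact h2
  obtain ⟨i, hi⟩ : ∃ i, w i ≠ 0 := by
    by_contra h
    push Not at h
    exact hw.2 (funext h)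
  obtain ⟨δ, hδ⟩ : ∃ δ : ℝ, δ = Real.log ‖μ‖ / 2 := ⟨_, rfl⟩
  have hl : 0 < Real.log ‖μ‖ := Real.log_pos hcon
  have hδ0 : 0 < δ := by rw [hδ]; linarith
  obtain ⟨B, hB⟩ := hB δ hδ0
  obtain ⟨S, hS⟩ : ∃ S : ℝ, S = ∑ j, ‖w j‖ := ⟨_, rfl⟩
  have h3 : ∀ m : ℕ, ‖μ‖ ^ m * ‖w i‖ ≤ B * Real.exp (δ * m) * S := by
    intro m
    have h4 := congrFun (hw1 m) i
    rw [Pi.smul_apply, smul_eq_mul] at h4
    rw [← norm_pow, ← norm_mul, ← h4, Matrix.mulVec, dotProduct, hS, Finset.mul_sum]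
    refine norm_sum_le_of_le _ fun j _ => ?_
    rw [norm_mul, MC_pow]
    refine mul_le_mul_of_nonneg_right ?_ (norm_nonneg _)
    have h5 : MC (A ^ m) i j = (((A ^ m) i j : ℤ) : ℂ) := rfl
    rw [h5, Complex.norm_intCast]
    exact hB m i j
  have h4 : ∀ m : ℕ, Real.exp δ ^ m * ‖w i‖ ≤ B * S := by
    intro m
    have h5 := h3 m
    have h6 : ‖μ‖ = Real.exp δ * Real.exp δ := by
      rw [← Real.exp_add, hδ, add_halves, Real.exp_log (by linarith)]
    have h7 : Real.exp (δ * m) = Real.exp δ ^ m := by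
      rw [← Real.exp_nat_mul]
      congr 1
      ring
    rw [h6, mul_pow, h7] at h5
    have h8 : 0 < Real.exp δ ^ m := by positivity
    have h9 : Real.exp δ ^ m * (Real.exp δ ^ m * ‖w i‖) ≤ Real.exp δ ^ m * (B * S) := by
      linarith
    exact le_of_mul_le_mul_left h9 h8
  have hw0 : 0 < ‖w i‖ := norm_pos_iff.2 hi
  obtain ⟨m, hm⟩ := pow_unbounded_of_one_lt (B * S / ‖w i‖) (Real.one_lt_exp_iff.2 hδ0)
  rw [div_lt_iff₀ hw0] at hm
  exact absurd (h4 m) (not_le.2 hm)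

/-- Kronecker: some power has an integral fixed vector -/
theorem exists_fixed {A : Matrix (Fin (k + 1)) (Fin (k + 1)) ℤ} (hdet : A.det ≠ 0)
    (hB : ∀ δ : ℝ, 0 < δ → ∃ B : ℝ, ∀ (m : ℕ) (i j : Fin (k + 1)), |((A ^ m) i j : ℝ)| ≤
      B * Real.exp (δ * m)) :
    ∃ n : ℕ, 0 < n ∧ ∃ t : Fin (k + 1) → ℤ, t ≠ 0 ∧ (A ^ n).mulVec t = t := by
  have hmon : A.charpoly.Monic := A.charpoly_monic
  have hmap : (MC A).charpoly = A.charpoly.map (Int.castRingHom ℂ) := Matrix.charpoly_map A _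
  obtain ⟨μ, hμ⟩ : ∃ μ : ℂ, (MC A).charpoly.IsRoot μ := by
    refine IsAlgClosed.exists_root _ ?_
    rw [Matrix.charpoly_degree_eq_dim, Fintype.card_fin]
    exact_mod_cast Nat.succ_ne_zero k
  have hev : Polynomial.aeval μ A.charpoly = 0 := by
    rw [hmap, IsRoot.def, eval_map] at hμ
    rw [Polynomial.aeval_def]
    exact hμ
  have hint : IsIntegral ℤ μ := ⟨A.charpoly, hmon, hev⟩
  have hμ0 : μ ≠ 0 := by
    rintro rfl
    apply hdet
    have h1 : (MC A).det = 0 := by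
      rw [Matrix.det_eq_sign_charpoly_coeff, coeff_zero_eq_eval_zero, IsRoot.def.1 hμ, mul_zero]
    have h2 : (MC A).det = ((A.det : ℤ) : ℂ) := by
      have := (Int.castRingHom ℂ).map_det A
      exact this.symm
    rw [h2] at h1
    exact_mod_cast h1
  have hintQ : IsIntegral ℚ μ := hint.tower_top
  have hfd : FiniteDimensional ℚ ℚ⟮μ⟯ := adjoin.finiteDimensional hintQ
  have hnf : NumberField ℚ⟮μ⟯ := ⟨⟩
  obtain ⟨x, hx⟩ : ∃ x : ℚ⟮μ⟯, (x : ℂ) = μ := ⟨AdjoinSimple.gen ℚ μ, AdjoinSimple.coe_gen ℚ μ⟩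
  have hx0 : x ≠ 0 := fun h => hμ0 (by rw [← hx, h]; rfl)
  have hxp : Polynomial.aeval x A.charpoly = 0 := by
    have h1 : algebraMap ℚ⟮μ⟯ ℂ (Polynomial.aeval x A.charpoly) = 0 := by
      rw [← Polynomial.aeval_algebraMap_apply]
      have : algebraMap ℚ⟮μ⟯ ℂ x = μ := hx
      rw [this]
      exact hev
    exact (map_eq_zero _).1 h1
  obtain ⟨n, hn, hxn⟩ := NumberField.Embeddings.pow_eq_one_of_norm_le_one ℚ⟮μ⟯ ℂ hx0
    ⟨A.charpoly, hmon, hxp⟩ fun σ => by
      refine eig_le hB ?_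
      rw [hmap, IsRoot.def, eval_map]
      have h1 := congrArg σ hxp
      rw [map_zero, Polynomial.aeval_def, hom_eval₂] at h1
      have h2 : σ.comp (algebraMap ℤ ℚ⟮μ⟯) = Int.castRingHom ℂ := RingHom.ext_int _ _
      rw [h2] at h1
      exact h1
  have hμn : μ ^ n = 1 := by
    rw [← hx]
    have := congrArg (fun z : ℚ⟮μ⟯ => (z : ℂ)) hxn
    simpa using this
  have h1 : Module.End.HasEigenvalue (Matrix.toLin' (MC A)) μ := by
    rw [Module.End.hasEigenvalue_iff_isRoot_charpoly, Matrix.charpoly_toLin']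
    exact hμ
  obtain ⟨w, hw⟩ := h1.exists_hasEigenvector
  have hwn : (MC A ^ n).mulVec w = w := by
    have h2 := hw.pow_apply n
    rw [← Matrix.toLin'_pow, Matrix.toLin'_apply, hμn, one_smul] at h2
    exact h2
  have hd : (MC A ^ n - 1).det = 0 := by
    refine Matrix.exists_mulVec_eq_zero_iff.1 ⟨w, hw.2, ?_⟩
    rw [Matrix.sub_mulVec, hwn, Matrix.one_mulVec, sub_self]
  have hd2 : (A ^ n - 1).det = 0 := by
    have h2 : MC A ^ n - 1 = MC (A ^ n - 1) := by
      rw [MC_pow]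
      unfold MC
      rw [← RingHom.mapMatrix_apply, ← RingHom.mapMatrix_apply, map_sub, map_one]
    have h3 : (MC (A ^ n - 1)).det = (((A ^ n - 1).det : ℤ) : ℂ) :=
      ((Int.castRingHom ℂ).map_det (A ^ n - 1)).symm
    rw [h2, h3] at hd
    exact_mod_cast hd
  obtain ⟨t, ht0, ht⟩ := Matrix.exists_mulVec_eq_zero_iff.2 hd2
  refine ⟨n, hn, t, ht0, ?_⟩
  rw [Matrix.sub_mulVec, Matrix.one_mulVec] at ht
  exact sub_eq_zero.1 ht

end

section

variable {r k : ℕ}

theorem add_pow {A : (Fin r → ℤ) → Matrix (Fin k) (Fin k) ℤ} (h0 : A 0 = 1)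
    (hadd : ∀ u v, A (u + v) = A u * A v) (v : Fin r → ℤ) (m : ℕ) : A v ^ m = A (m • v) := by
  induction m with
  | zero => rw [pow_zero, zero_smul, h0]
  | succ m ih => rw [pow_succ, ih, ← hadd, succ_nsmul]

/-- **Growth.** -/
theorem growth (hr : 0 < r) {A : (Fin r → ℤ) → Matrix (Fin (k + 1)) (Fin (k + 1)) ℤ}
    (h0 : A 0 = 1) (hadd : ∀ u v, A (u + v) = A u * A v)
    (hirr : ∀ t : Fin (k + 1) → ℤ, t ≠ 0 → ∀ x : Fin (k + 1) → ℝ,
      x ∈ Submodule.span ℝ (Set.range fun v => TR (A v) (fun i => (t i : ℝ))))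
    (hfa : ∀ v, v ≠ 0 → A v ≠ 1) :
    ∃ c δ : ℝ, 0 < c ∧ 0 < δ ∧ ∀ v, c * Real.exp (δ * ∑ i, |(v i : ℝ)|) ≤
      ∑ i, ∑ j, |(A v i j : ℝ)| := by
  refine Pool.Agent.N572.PA.dir Pool.Agent.N572.PA.gap (k + 1) r hr A h0 hadd fun v hv => ?_
  by_contra hcon
  push Not at hcon
  have hdet : (A v).det ≠ 0 := by
    intro h
    have h1 : (A v * A (-v)).det = 1 := by rw [← hadd, add_neg_cancel, h0, Matrix.det_one]
    rw [Matrix.det_mul, h, zero_mul] at h1
    exact zero_ne_one h1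
  obtain ⟨n, hn, t, ht0, ht⟩ := exists_fixed hdet fun δ hδ => hcon δ hδ
  rw [add_pow h0 hadd] at ht
  refine hfa (n • v) (fun h => hv ?_) ?_
  · have h1 : n • v = 0 := h
    exact (smul_eq_zero.1 h1).resolve_left hn.ne'
  · have h1 : ∀ u, TR (A (n • v)) (TR (A u) (fun i => (t i : ℝ))) =
        TR (A u) (fun i => (t i : ℝ)) := by
      intro u
      have h2 : TR (A (n • v)) * TR (A u) = TR (A u) * TR (A (n • v)) := by
        rw [← TR_mul, ← TR_mul, ← hadd, ← hadd, add_comm u (n • v)]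
      have h3 := LinearMap.congr_fun h2 (fun i => (t i : ℝ))
      have h4 : TR (A (n • v)) (fun i => (t i : ℝ)) = fun i => (t i : ℝ) := by
        rw [TR_cast, ht]
      change TR (A (n • v)) (TR (A u) _) = TR (A u) (TR (A (n • v)) _) at h3
      rw [h3, h4]
    have h2 : ∀ x, TR (A (n • v)) x = x := by
      intro x
      induction hirr t ht0 x using Submodule.span_induction with
      | mem x hx =>
        obtain ⟨u, rfl⟩ := hx
        exact h1 u
      | zero => rw [map_zero]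
      | add x z _ _ hx hz => rw [map_add, hx, hz]
      | smul a x _ hx => rw [map_smul, hx]
    refine Matrix.ext_of_mulVec_single fun j => ?_
    have h3 := h2 (fun i => ((Pi.single j 1 : Fin (k + 1) → ℤ) i : ℝ))
    rw [TR_cast] at h3
    rw [Matrix.one_mulVec]
    funext i
    have h4 := congrFun h3 i
    exact_mod_cast h4

end

end Pool.Agent.Helper13IR
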